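import Pool.Agent.H43.CM.Defs

/-!
# MP_7fe4b4_ag : long version of the proof of Theorem B (one-step formula for the CM type at e_id)

GOAL.  u in S_n with an integer function h on positions such that h(b) = h(a)+1 for every cover
u.(a b) of u below u (a<b, u a > u b, no c in between with u b < u c < u a).  Let q be an ascent of u,
v = u s_q, and suppose s_q <= u (i.e. u j > q for some j <= q) and t := h(q) - h(q+1) >= 1.
Then the local ring O_v of X_v at e_id has dimension l(v) and Ext^{l(v)}_{O_v}(k, O_v) = k^t; the same for
v^{-1} = s_q u^{-1}.

CONVENTIONS (file Defs.lean).  0-based. k = C. A = k[z_e : e in Low n].  U^- = lower unitriangular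
matrices = k^{Low n}.  Cell w = B w B.  S_{x,v} = {z : x z in BvB}, I_{x,v} = its vanishing ideal (= unit ideal
if S_{x,v} is empty), R_{x,v} = A/I_{x,v}, R_v = R_{e,v}, origin ideal m = (z_e).
Bruhat order: w <= v iff rk w i k <= rk v i k for all i,k, rk w i k = #{j<k : w j >= i}.
w [k<=] v means rk w i k <= rk v i k for all i (this k);  w [k=] v  likewise with =.
Delta_{w,k}(M) = det of rows w0..w(k-1), first k columns; as a function on the chart x: Delta_{w,k}(x z) =: pmnr.

===================================================================================================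
PART A.  CELLS (matrices over C)
===================================================================================================
(A1) M in Cell v, w [k=] v  ==>  Delta_{w,k}(M) != 0.
  Proof. M = b v b'. The first k columns of M = (first k columns of b v) * (b' leading k x k block, upper
  triangular, invertible). So Delta = det( b_{w i, v j} )_{i,j<k} * unit. The sets {w i}_{i<k}, {v j}_{j<k} are equal
  (rank functions determine the set), so up to a sign (permutation of rows) it is det(b_{v i, v j})_{i,j<k}, and
  this matrix is block triangular with respect to the injective order function i -> v i; det = prod b_{v i,v i} != 0.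
(A2) M in Cell v, rk v i k < rk w i k for some i ==> Delta_{w,k}(M) = 0.
  Proof. Take the rows w j (j<k) with w j >= i: there are rk w i k of them. They are the rows of the product
  b_{>=i,>=i} * (v)_{>=i, <k} * b'_{<k,<k} (b upper triangular: rows >= i of b only see rows >= i of v b'; the first k
  columns of v b' only see the first k columns of v). (v)_{>=i,<k} has rank rk v i k. So these rows span a space of
  dimension <= rk v i k < their number, so they are linearly dependent and the determinant is 0.
(A3) [Bruhat decomposition] every invertible M lies in some Cell w.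
  Proof. Gauss elimination, column by column: in column 0 take the lowest nonzero entry, in row i=w(0); row operations
  (adding multiples of row i to higher rows = left multiplication by upper triangular) clear column 0 above i;
  column operations (adding column 0 to later columns = right multiplication by upper triangular) clear row i to the right;
  continue. [The lemma is only applied to x * lowMat z, det = +-1.]
(A3') Cell v cap Cell w nonempty ==> v = w.  (A1 for v,v; A2 contrapositive => v [k<=] w for all k, and symmetric;
  antisymmetry of Bruhat order.)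
(A4) [closed points] z in V(I_{x,v}) and x*z in Cell w  ==>  w <= v.
  Proof. Delta_{w,k}(x z) != 0 by A1 so the polynomial pmnr x w k is not in I_{x,v}, so there is z' in S_{x,v} with
  Delta_{w,k}(x z') != 0, so by A2 rk w i k <= rk v i k for all i.
(A5) [P_s-saturation] Let q an index, s = s_q, w with w(q) > w(q+1), v = w s.  Cell w u Cell v is stable under right
  multiplication by B and by the permutation matrix s and by x(t) = 1 + t E_{q+1,q}.
  Proof. Cell w u Cell v = {b v p : b in B, p in P_s}, where P_s = block upper triangular invertible matrices (only allowed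
  entry below the diagonal: (q+1,q)). Inclusion: w = v s, so both cells are in the right side. Conversely let
  p in P_s. If p_{q+1,q} = 0 then p in B and b v p in Cell v. If c=p_{q+1,q} != 0: p = x_+(y) s p' with p' in B,
  y = p_{qq}/c, x_+(y) = 1 + y E_{q,q+1}: (the 2x2 block: [[a,b],[c,d]] = [[1,a/c],[0,1]] * [[0,1],[1,0]] * [[c,d],[0,b-ad/c]]).
  Then b v x_+(y) s p' = (b * v x_+(y) v^{-1}) v s p', and v x_+(y) v^{-1} = 1 + y E_{v q, v(q+1)} is upper triangular as
  v(q) < v(q+1). So it is in Cell(v s) = Cell w.
(A6) [fibre rule]  Same q, w, v=ws. Put a(g) = Delta_{w,q+1}(g s), b(g) = - Delta_{w,q+1}(g).  Let g in Cell w u Cell v. Then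
  (a(g), b(g)) != (0,0);  Delta_{w,q+1}(g x(t)) = a(g) t - b(g);  Delta_{w,q+1}(g s x(t')) = a(g) - b(g) t';
  for h in Cell w u Cell v:  h in Cell w  iff  Delta_{w,q+1}(h) != 0.
  Hence: g x(t) in Cell w iff a t != b; g x(t) in Cell v iff a t = b; g s x(t') in Cell w iff a != b t';
  g s x(t') in Cell v iff a = b t'.
  Proof. h in Cell w: Delta != 0 by A1; h in Cell v: rk v (i) (q+1) < rk w (i) (q+1) for i = w(q), so Delta = 0 by A2.
  The formulas: column q of g x(t) is col_q(g) + t col_{q+1}(g), the columns 0..q-1 are those of g; column q of g s is
  col_{q+1}(g); column q of g s x(t') is col_{q+1}(g) + t' col_q(g). (Multilinearity of det in the last column.)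
  If a = b = 0 then g and g s are both in Cell v: g = b1 v b2, so Cell v contains b1 v b2 s; but for all t, g x(t) has
  Delta = 0, so g x(t) in Cell v for all t, and g s in Cell v.  Contradiction: write b2 s with b2 in B upper:
  g * p runs over all of b1 v P_s which contains b1 v s in Cell w; as P_s = B u B s B u ..: precisely
  b1 v s = g * (b2^{-1} s) and b2^{-1} s in P_s = s-or-x(t) times B: its 2x2 block [[p',r'],[0,u']]*[[0,1],[1,0]] =
  [[r',p'],[u',0]] = x(u'/r') * upper if r' != 0, = s * upper if r'=0. So b1 v s in g x(t) B or g s B, so in Cell v,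
  contradiction with A3'.  [Alternatively: Delta_{w,q+1}(g p) is, for p in P_s, a linear combination of a(g) and b(g) times a unit.]
(A7) [curve lemma] Let v' , v = v' (a b) with a < b, v'(a) < v'(b), z0 in S_{x,v'}. Then there is a ring homomorphism
  phi : A -> k[[c]] (PowerSeries) such that: constant coefficient of phi(f) = f(z0) for all f; phi(f) = 0 for all f in I_{x,v};
  for a < k <= b: the coefficient of c^1 in phi(pmnr x v k) is nonzero (and the constant coefficient is 0).
  Also S_{x,v} is nonempty.
  Proof. x z0 = b1 v' b2. M(c) = b1 v'(1+c E_{b,a}) b2, polynomial in c. For c in k, c != 0: M(c) in Cell v: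
  1+cE_{ba} = (1 + c^{-1}E_{ab}) * D * (a b) * (1+c^{-1}E_{ab}) with D diagonal invertible, [SL2: (1,0;c,1) =
  (1,1/c;0,1)(0,-1/c;c,0)(1,1/c;0,1)], and v'(1+c^{-1}E_{ab})v'^{-1} = 1+c^{-1}E_{v'a,v'b} is upper as v'a<v'b,
  v' D v'^{-1} is diagonal.
  x^{-1} M(c) = z0 * (1 + c N), N = b2^{-1}E_{ba}b2. Let D_j(c) = leading principal j x j minor of x^{-1}M(c): D_j(0)=1.
  LU decomposition over k[[c]] (all leading minors are units): x^{-1} M(c) = z(c) T(c), z(c) lower unitriangular over k[[c]],
  T(c) upper triangular with unit diagonal entries T_jj = D_{j+1}/D_j; z(c)_{pj} = (minor with rows 0..j-1,p, columns 0..j)/D_{j+1}.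
  phi: z_e -> z(c)_e.  phi(f)(0) = f(z0) as z(0) = z0 (T(0)=1... uniqueness of LU).
  f in I_{x,v}: let E = prod_j D_j in k[c]. For c in k with c != 0 and E(c) != 0: z(c) is a point of S_{x,v}
  [x z(c) = M(c) T(c)^{-1}]. So f(z(c)) = 0 for almost all c. E^N f(z(c)) is a polynomial in c which vanishes at infinitely many c,
  so it is 0, so phi(f) = 0 as E is a unit in k[[c]].  Nonemptiness: take one such c.
  pmnr x v k: phi(pmnr x v k) = Delta_{v,k}(x z(c)) = Delta_{v,k}(M(c))/D_k(c). And
  Delta_{v,k}(M(c)) = det[ (b1 N_c)_{v i, j} ] * det(b2)_{<k,<k}, N_c = v'(1+cE_{ba}) has columns e_{v' j} (j != a),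
  e_{v' a} + c e_{v' b} (j=a). For a<k<=b, multilinear in column a: = Delta_{v,k}(b1 v') + c * det(b1_{v i, v j})  (for j != a, j<k<=b we
  have v' j = v j and v' b = v a). The first is 0 by A2 (rk v' i k < rk v i k for i = v'(b)), the second is nonzero as in A1.
(A8) I_{x,v} <= I_{x,w} if w <= v.  Proof: single step v' = v (a b), v'(a)<v'(b), a<b: f in I_{x,v}, z0 in S_{x,v'}: f(z0) =
  constant coefficient of phi(f) = 0. In general induct on l(v) by (B5).
(A9) x <= v ==> S_{x,v} nonempty.  Proof: 0 in S_{x,x}; induct with B5 and A7.  e <= v for all v.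
(A10) [torus] for lambda in k^*, c : Fin n -> N monotone; z in S_{x,v} ==> (lambda^{c p - c j} z_{pj}) in S_{x,v}.
  (conjugation by diag(lambda^{c_p}); x t z t^{-1} = (x t x^{-1}) x z t^{-1}.) Hence I_{x,v} is homogeneous for the weights
  c_p - c_j (here c nondecreasing) and, with c_p = p, if S_{x,v} nonempty: I_{x,v} <= (z_e) (f(lambda z) polynomial in lambda
  vanishing for lambda != 0, so also at lambda = 0).
(A11) S_{w0,w0} = everything; S_{w0,v} = empty if v != w0 (w0 z = (w0 z w0) w0 in B w0, and A3').
(A12) z in S_{e,v} ==> z^{-1} in S_{e,v^{-1}}; z -> z^{-1} is polynomial on U^-.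
(A13) S_{e,e} = {0}.

===================================================================================================
PART A'.  CHARTS.  Fix q, s = s_q, x with x(q) < x(q+1), w with w(q) > w(q+1), v = ws.
===================================================================================================
kappa = {e in Low n : e != (q+1,q)}.  For y in k^kappa let uu(y) = lower unitriangular matrix with these entries and 0 at (q+1,q).
Tbar_{x,w} = {y : x uu(y) in Cell w u Cell v}.  a, b in k[kappa]: a(y) = a(x uu(y)), b(y) = b(x uu(y)).
Option kappa = kappa u {t}.   gamma : k^{Option kappa} -> k^{Low n}: lowMat(gamma(y,t)) = uu(y) x(t), i.e.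
gamma(y,t)_{q+1,q} = t, gamma_{p,q} = y_{p,q} + t y_{p,q+1} (p > q+1), gamma_{p,j} = y_{p,j} (j != q).
It is a polynomial automorphism, fixes the origin, and is compatible with all torus scalings.
gamma'(y,t) = gamma(pi y, t), pi permutes the entries: lowMat(gamma'(y,t)) = s uu(y) s x(t).
S1ne = {(y,t): y in Tbar, a t != b}; S1eq = {y in Tbar, a t = b}; S2ne = {y in Tbar, b t != a}; S2eq = {y in Tbar, b t = a}.
(A'1) gamma^{-1}(S_{x,w}) = S1ne,  gamma^{-1}(S_{x,v}) = S1eq,  gamma'^{-1}(S_{xs,w}) = S2ne, gamma'^{-1}(S_{xs,v}) = S2eq.
  (A5: x z in Cell w u Cell v iff x uu(y) in it, as z = uu(y) x(t); xs (s uu s) x(t) = x uu s x(t).  Then A6.)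
(A'2) (a,b)(y) != (0,0) for y in Tbar.
(A'3) [abstract] Let T subset k^kappa, a,b in k[kappa] with no common zero on T, J = I(T).
   (ne) I(S1ne) = {f : all coefficients of f as a polynomial in t are in J}; so CR(S1ne) = CR(T)[t].
   (eq) if CR(T) is a domain with fraction field K and a != 0 in CR(T): I(S1eq) = kernel of k[kappa][t] -> K, t -> tau = b/a;
        so CR(S1eq) = CR(T)[tau] subset K. If a = 0 on T then S1eq is empty. f in k[kappa] lies in I(S1eq) iff f in J.
   Proof (ne): fixed y in T: f(y,.) vanishes at all t but at most one, so f(y,.)=0.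
   (eq): f = sum f_i t^i vanishes on S1eq iff for all y in T with a(y) != 0, sum f_i(y)(b(y)/a(y))^i = 0 iff
   a * sum f_i a^{N-i} b^i = 0 on T iff sum f_i tau^i = 0 in K.

===================================================================================================
PART B.  COMBINATORICS OF THE BRUHAT ORDER OF S_n (rank functions)
===================================================================================================
(B0) ble is a partial order; rk formulas: rk (v s_q) i k = rk v i k for k != q+1.
(B1) l(v s_q) = l(v)+1 if v q < v(q+1);  l(v s_q)+1 = l(v) if v q > v(q+1).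
(B2) [lifting] Let w <= v.
   (a) v q > v(q+1)                    ==> w s_q <= v.
   (b) v q > v(q+1), w q < w(q+1)      ==> w <= v s_q.
   (c) v q > v(q+1), w q > w(q+1)      ==> w s_q <= v s_q.
   (d) v q < v(q+1), w q < w(q+1)      ==> w s_q <= v s_q.
   Proof: only k = q+1 matters; rk v i (q+1) = rk v i q + [v q >= i], rk v i (q+2) = rk v i q + [vq >= i] + [v(q+1) >= i]; case check.
(B3) w <= v ==> l(w) <= l(v), with equality iff w = v.  (induct with B2.)
(B4) v' < v, l(v') = l(v)-1, v q > v(q+1), v' q < v'(q+1)  ==> v' = v s_q.  (B2b + B3)
(B5) w < v ==> exists v' with w <= v' < v, l(v') = l(v)-1.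
   Proof: pick a descent q of v. If w q < w(q+1): w <= v s_q. Else w s <= v s, w s != v s; by induction y with w s <= y < v s,
   l(y) = l(vs)-1. If y q < y(q+1): v' = y s (w = (ws)s <= ys by B2d or as y s > y...; ys <= v by B2a-type). If y q > y(q+1):
   w = (ws)s <= y by B2a, y < vs, so v' = vs.
(B6) cov v' v ==> v' = v (a b) with a<b, v a > v b and no a<c<b with v b < v c < v a; conversely such a transposition gives a
   cover. For such a cover: for a<k<=b: rk v' i k < rk v i k for i = v a (value), and v' [k=] v for k <= a or k > b.
(B7) [thinness, the form needed] cov w v', v' q < v'(q+1), v = v' s_q. There is exactly one v'' != v' with cov v'' v and w <= v''.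
   Proof.  all v'' != v' with cov v'' v have a descent at q (B4).  If w q < w(q+1): v'' := w s_q (B2d; length; != v' by length..
   w s = v' would give w = v). Uniqueness: w <= v'' and v'' descent => w s <= v'' (B2a), lengths => equal.
   If w q > w(q+1): interval [ws, v'], length 2, by thinness of all length-2 intervals (induct on l) it has exactly two middle
   elements, one is w; the other, y, has an ascent at q (else ws <= y, y descent ==> w <= y ==> w = y); v'' := y s. Conversely v'' gives
   y = v'' s in (ws, v'). So one proves general thinness (every interval [w,v] with l(v)-l(w)=2 has exactly 2 middle elements) by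
   induction on l(v) with a descent q of v: middle elements without descent at q: only vs (if w <= vs); middle elements z with a descent:
   if w ascent at q: z = ws only, and w <= vs (B2b).  If w has a descent at q: z -> zs is a bijection from middle elements of [w,v] with
   descent at q to middle elements of [ws,vs] with ascent at q; [ws,vs] has two middle elements; a middle element of [ws,vs] with
   descent at q must be w; and w is a middle element of [ws,vs] iff w <= vs.
(B8) [for Theorem B] u with h as in the GOAL, q ascent of u, h(q) != h(q+1), v = u s_q: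
   (i) u' covered by u ==> u' has an ascent at q, and v' = u's is covered by v, v' != u.
   (ii) v' covered by v, v' != u ==> v' has a descent at q (B4) and u' = v's is covered by u.
   Proof (i): u' = u(a b) Hasse edge. If u' had a descent at q then {a,b} meets {q,q+1}; cases: a=q, b>q+1: u'(q)=u(b)<u(q)<u(q+1)=u'(q+1) no.
   a=q+1: u'(q+1)=u(b), descent iff u(b)<u(q); then (q,b) is also a Hasse edge, so h(b) = h(q)+1 = h(q+1)+1, contradiction.
   b=q: u'(q) = u(a), descent iff u(a) > u(q+1); then (a,q+1) is a Hasse edge, h(q)=h(a)+1=h(q+1), contradiction.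
   b=q+1,a<q: u'(q)=u(q)<u(q+1)<u(a)=u'(q+1) no. (a,b)=(q,q+1) is no inversion.
   Then u' s <= v (B2d), length l(u)=l(v)-1, and u's != u since u s > u.

===================================================================================================
PART C.  COMMUTATIVE ALGEBRA OF R[tau]
===================================================================================================
R Noetherian normal domain, K = Frac R, tau in K, tau != 0. n an ideal of R (maximal).
Dep(R,n,M,d): exists a weakly M-regular sequence of length d in n. For M f.g. over Noetherian R this is equivalent to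
Ext^i_R(R/n,M)=0 for all i<d (Mathlib: ModuleCat.exists_isRegular_tfae if nM != M; if nM = M both sides hold).
(C0) closure properties of Dep:
   (D1) Dep(M,d+1), x in n M-regular ==> Dep(M/xM,d).
   (D2) 0->M'->M->M''->0: Dep(M,d+1), Dep(M'',d) ==> Dep(M',d+1);  Dep(M,d), Dep(M',d+1) ==> Dep(M'',d).
   (D3) f: R->S surjective, S-module M: Dep(R, f^{-1}(n), M, d) iff Dep(S, n, M, d).
   (D4) Dep(R,n,M,d) ==> Dep(R[X],(n,X),M[X],d+1);  Dep(R[X],(n,X),R[X],d+1) ==> Dep(R,n,R,d).
(C1) Let bb be a radical ideal of R (bb = R allowed), y in K with y in sum_{i<=N} bb tau^i and y in sum_{i<=N} bb tau^{-i}. Then y in bb.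
   Proof: M = sum_{|i|<=N} R tau^i: y M in bb M (use the first expression for tau^i, i<=0, the second for i>=0), M f.g. faithful, so
   y^r + b_1 y^{r-1} + ... + b_r = 0 with b_i in bb^i; so y integral over R, y in R, y^r in bb, y in bb.
   In particular R[tau] cap R[tau^{-1}] = R.
(C2) L1 = {a in R : a tau in R}.  bb radical ideal, cc = {c in bb : c tau in bb}. g in R[X] with all coefficients in bb and g(tau) = 0
   iff g = (X - tau) h with all coefficients of h in cc.  [bb = R: kernel of R[X]->R[tau] is (X-tau) L1[X].]
   Proof: g=(X-tau)h in K[X]; h_j = g_{j+1} + tau g_{j+2} + ..., and h_j = -(g_0 tau^{-j-1} + ... + g_j tau^{-1}); so h_j in bb by C1;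
   tau h_j = h_{j-1} - g_j in bb.
(C3) R[tau^{-1}]/(tau^{-1}) = R/L1 (R -> R[tau^{-1}]/(tau^{-1}) is onto with kernel R cap tau^{-1}R[tau^{-1}] = L1 by C1).
(C4) m>=0: R[tau] cap tau^m R[tau^{-1}] = sum_{i<=m} R tau^i.  Induct: y = r0 + tau y1, y1 in R[tau]; y1 = tau^{-1}(y-r0) in tau^{m-1}R[tau^{-1}].
(C5) conductor primes: kappa in K, kappa not in R, Q a prime ideal of R associated to R/(R:kappa). Then R_Q is a DVR
   and kappa not in R_Q.  Proof: Q = (R : kappa') with kappa' = r kappa. Q R_Q kappa' in R_Q; not in QR_Q (else kappa' integral over R_Q, so in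
   R_Q, so some x not in Q has x kappa' in R, contradiction); so Q R_Q kappa' = R_Q, QR_Q = kappa'^{-1}R_Q principal.
   Consequence (N1): if x,y in R, y != 0 and x in y R_Q for all primes Q with height 1 then x in yR.
(C6) if R[tau^{-1}] is normal then R[tau] is normal.
   Proof: S=R[tau]; S[tau^{-1}] = R[tau,tau^{-1}] is a localization of R[tau^{-1}], so normal. Let g in K integral over S; tau^k g in S for some k;
   so it is enough: g = s/tau integral over S, s in S ==> s in tau S. Let P be a prime of S associated to S/tauS. S/tau S = R/L0,
   L0 = {b in R : b tau^{-1} in R} (C3 for tau^{-1}); Q = P cap R is associated to R/L0, so R_Q is a DVR (C5; if tau^{-1} in R then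
   L0 = R, S/tau=0 nothing to do). R_Q subset S_P subset K, S_P is not a field (tau in P), so S_P = R_Q is normal so g in S_P, s in tau S_P.
   For all P in Ass(S/tau S) ==> s in tau S.
(C7) [depth] n maximal ideal of R with (n,tau) != R[tau] (the unit ideal). If Dep(R,n,R,d) and Dep(R[tau^{-1}],(n,tau^{-1}),R[tau^{-1}],d) then
   Dep(R[tau],(n,tau),R[tau],d).
   Proof: d=0 trivial. tau^{-1} is regular on R[tau^{-1}]; D1: Dep(R[tau^{-1}]/(tau^{-1}),d-1); via D3 and C3: Dep(R,n,R/L1,d-1)
   (if n + L1 = R: some y in n acts as the identity on R/L1, constant sequence y). D2: Dep(R,n,L1,d). D4: Dep(R[X],(n,X),L1[X],d+1)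
   and Dep(R[X],(n,X),R[X],d+1). 0 -> L1[X] -> R[X] -> R[tau] -> 0 (first map = mult by X-tau) and D2: Dep(R[X],(n,X),R[tau],d). D3.

===================================================================================================
PART D.  ALL R_{x,v} ARE NORMAL DOMAINS WITH DEPTH >= l(v) AT THE ORIGIN
===================================================================================================
Good(S,d): CR(S) is an integrally closed domain and Dep(CR(S), orig, CR(S), d).
(D) S_{x,v} nonempty ==> Good(S_{x,v}, l(v)).  Downward induction on l(x).  x = w0: A11, polynomial ring.  x != w0: pick an ascent q of x.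
  If v q > v(q+1): w=v. Tbar nonempty; S2ne nonempty by A'2, so S_{xs,v} nonempty, Good(S2ne,l(v)), CR(S2ne) = CR(Tbar)[t], so
     CR(Tbar) is a normal domain with Dep >= l(v)-1, CR(S1ne) = CR(Tbar)[t] is good.
  If v q < v(q+1): w = vs. S1eq nonempty so a != 0 on Tbar. Good(S2ne, l(v)+1) so CR(Tbar) =: R is a normal domain with Dep(.,l(v)).
     If b = 0 on Tbar: tau = 0, CR(S1eq) = R. Else S2eq nonempty, Good(S2eq,l(v)), CR(S2eq) = R[tau^{-1}], so by C6, C7 CR(S1eq) = R[tau] is good.

===================================================================================================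
PART E.  THE BOUNDARY DIVISORS.   x, v with S_{x,v} nonempty, R = R_{x,v}.  P_{v'} = I_{x,v'}/I_{x,v} for v' <= v.
===================================================================================================
(E1) [G5] v' <= v, S_{x,v'} nonempty: Delta_{v,k} in P_{v'} iff not v' [k=] v.   (A1, A2)
(E2) [G3] Q height one prime of R, Delta_{v,k} in Q  ==> Q = P_{v'} for some v' covered by v, S_{x,v'} nonempty.
  Proof: V(Q) point z: x z in Cell w (A3), w <= v (A4), w != v (A1), so w <= v' covered by v (B5), I_{x,v'} <= I_{x,w} <= I(z). So the
  product of all I_{x,v'} vanishes on V(Q), so is contained in Q (Nullstellensatz, Q prime), so some I_{x,v'} <= Q. As Q != R, S_{x,v'} is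
  nonempty; P_{v'} is prime (D), nonzero (E1: v' != v so some k with not v'[k=]v, Delta_{v,k} in P_{v'}, not in I_{x,v}), so Q = P_{v'}.
(E3) v' covered by v, S_{x,v'} nonempty: P_{v'} is a height one prime.  Proof: choose k with not v'[k=]v; Delta_{v,k} in P_{v'} nonzero;
  a minimal prime Q of (Delta_{v,k}) inside P_{v'} has height one (Krull), by E2 Q = P_{v''}, P_{v''} <= P_{v'} ==> v' <= v'' (as in A4) ==> v'=v''.
(E4) [G4] v' covered by v, not v'[k=]v, h in R not in P_{v'}: h Delta_{v,k} is not in P_{v'}^2.
  Proof: z0 in S_{x,v'} with h(z0) != 0; phi from A7: phi(P_{v'}) in (c), so phi(P_{v'}^2) in (c^2), phi(h) unit, phi(Delta) has order 1.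
  So Delta_{v,k} generates the maximal ideal of the DVR R_{P_{v'}}.
(E5) P_{v'} = P_{v''}, nonempty, covers: v'=v''.
(E6) [Div, abstract] R Noetherian normal domain, QQ finite set of height one primes, Delta_k (k in a finite set) nonzero elements with:
  Q' height one, Delta_k in Q' => Q' in QQ; for Q in QQ and k: either (eps=0) Delta_k not in Q or (eps=1) Delta_k in Q and
  h Delta_k not in Q^2 for all h not in Q. e_k integers with sum_k eps(Q,k) e_k = 1 for all Q in QQ. f+ = prod Delta_k^{max(e_k,0)},
  f- = prod Delta_k^{max(-e_k,0)}. Then for g in R: g in all Q in QQ iff exists r in R, f- g = f+ r.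

===================================================================================================
PART F.  ADJUNCTION.
===================================================================================================
(F1) [divisoriality] B a UFD (Noetherian), R a domain, module-finite over B, M ideal of R, M = Hom_B(R,B) as R-modules. x in R such that
   for every height one prime Q of R there is h not in Q with h x in M. Then x in M.
   Proof: beta in M nonzero, Phi: M = Hom_B(R,B).  For b' in B\{0} with b' x in M... let pi be a prime element of B.  Claim: exists b' in B, pi not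
   dividing b', b' x in M. [aa = {h : hx in M} ideal, nonzero (contains beta). If aa misses the multiplicative set B \ (pi) there is a prime Q
   containing aa, Q cap B subset (pi). Q cap B != 0 since Q != 0 and R integral over B; so Q cap B = (pi), Q has height one
   (0 < Q1 < Q gives 0 != Q1 cap B != (pi), contradiction), contradicting the hypothesis.] Now psi := Phi(beta x)(.) and we want
   phi in Hom_B(R,B) with beta phi = psi... : define phi(r) = Phi(b' x)(r)/b' in Frac B, independent of b' (b'' Phi(b' x) = Phi(b'b'' x) = b'Phi(b'' x)).
   phi(r) in B_(pi) for every prime element pi, so phi(r) in B. phi in Hom_B(R,B), phi = Phi(m), b' m = b' x so m = x.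
(F2) [base case] B UFD, R = A UFD, module-finite domain over B with B->A injective, char 0 not needed: Hom_B(A,B) = A as A-modules (f.g., rank one).
   Proof: omega=Hom_B(A,B) is f.g. torsion-free over A, rank one (Hom_F(K,F) has F-dimension [K:F], so K-dimension 1), so isomorphic to a nonzero
   ideal M of A. Dividing by the gcd g of M: M = gM', M' = omega, gcd(M') = 1, so M' is not contained in any height one prime (p), so 1 in M' by F1.
(F3) [adjunction] R, R' domains, pi:R->>R' with kernel P; B,B' domains, rho: B->>B' with kernel (theta0), R algebra over B, finite free, R' algebra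
   over B', compatible. theta = image of theta0, nonzero in R (in P). W, W+ ideals of R with Phi: W = Hom_B(R,B) (R-linear);
   W = W+ cap P;  (*) w in W with p w in theta W for all p in P ==> w in theta W+.
   Then pi(W+) = Hom_{B'}(R',B') as R'-modules.
   Proof: Psi(w1)(r) = rho(Phi(theta w1)(r)) for w1 in W+ (theta w1 in W+ cap P = W). Phi(theta w1)(p) = Phi(theta p w1)(1) = theta0 Phi(p w1)(1)
   (p w1 in W) so Psi(w1) factors through R'. Psi(w1)=0 iff Phi(theta w1) in theta0 Hom_B(R,B) (R free) iff theta w1 in theta W iff w1 in W.
   Onto: psi in Hom_{B'}(R',B') lifts to phi in Hom_B(R,B), phi=Phi(w); for p in P: phi(p r) in theta0 B so p w in theta W; so w = theta w1.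
   W+/W = pi(W+).
(F4) [adjunction for divisors] R Noetherian normal domain, P, P_i (i in a finite set) distinct height one primes, W+ = cap P_i, W = W+ cap P. theta in P
   nonzero. Then (*) of F3 holds.  Proof: w1=w/theta in K, w1 P in W. For Q height one, Q != P: p in P\Q, p w1 in R so w1 in R_Q. Q = P: uniformizer
   p in P, p w1 in P so w1 in R_P. So w1 in R (N1). For each i: p in P\P_i, p w1 in P_i so w1 in P_i.
(F5) [the step] in addition: R' Noetherian normal domain with distinct height one primes J_j, B' UFD, R' finite over B', such that
   (i) for all j exists i: pi(P_i) <= J_j; (ii) for every height one prime Q of R': if Q = J_j for some j there is beta in W+ with pi(beta) in Q,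
   h pi(beta) not in Q^2 for all h not in Q; if Q is not one of the J_j there is beta in W+ with pi(beta) not in Q.
   Then pi(W+) = cap J_j, hence cap J_j = Hom_{B'}(R',B').  Proof: subset by (i); superset: x in cap J_j; apply F1 to M = pi(W+):
   at Q=J_j: R'_Q DVR, pi(beta) uniformizer, x in Q so h x in (pi beta) subset M for some h not in Q. At other Q: h = pi(beta).
(F6) [Schubert] C_v: I_bd(v) := cap_{v' covered by v} P_{v'} (in R_v = R_{e,v}) is isomorphic to Hom_{B_d}(R_v,B_d), d = l(v) (B_d acts by theta's, PART G).
   C_{w0}: R_{w0} = A UFD, each P_{v'} is principal (height one prime of a UFD), so I_bd = (g) = A = Hom_B(A,B) by F2.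
   C_{v's} ==> C_{v'} if v' q < v'(q+1), v = v's: P = P_{v'}, the P_i: P_{v''}, v'' != v'; J_j: P'_w, w covered by v'. theta = theta_d, d = l(v).
   (i) thinness B7. (ii) Q = P'_w: v'' the unique cover of B7; k with not v'[k<=]v''; then Delta_{v',k} in P_{v''} (A2) and not w[k=]v'
   (as w <= v''); g in prod of the other P_{v'''}, not in I_w (exists since w not<= v''': P_{v'''} not<= P_w); beta = g Delta_{v',k}; E4.
   Q not of this form: beta = prod_{v'' != v'} Delta_{v',k(v'')} with not v'[k(v'')<=]v''; Delta_{v',k} not in Q by E2.

===================================================================================================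
PART G.  PARAMETERS AND THE TYPE FORMULA
===================================================================================================
weights deg z_{pj} = p - j >= 1.  For w != e: p_w = prod_k pmnr e w k, homogeneous of degree delta_w = sum_k sum_{i<k}(w i - i) >= 1.
D = prod_{w != e} delta_w.  theta_j := sum_{w : l(w) = j} p_w^{D/delta_w} (j>=1), homogeneous of degree D.
(G1) l(w) < j ==> theta_j in I_w (w' with l(w')=j is not <= w, A2).  l(v)=j: theta_j = p_v^{D/delta_v} mod I_v, nonzero.
(G2) z in V(I_v), theta_1(z)=...=theta_{l(v)}(z)=0 ==> z = 0.  (z in Cell w (A3), w <= v (A4); if w != e: theta_{l(w)}(z) = p_w(z)^.. != 0.  w=e: z=0.)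
     So m^N <= I_v + (theta_1..theta_d) for some N.
(G3) [abstract, graded] A = k[z_e] positive weights, I homogeneous ideal with A/I domain, theta_1..theta_d homogeneous of positive degree,
     m^N <= I + (theta), Dep(R,m,R,d) (R=A/I).  Then R is finite and free over B_d = k[Y_1..Y_d], dim R_m = d.
   Proof: finite: R is spanned over B by the monomials of degree < N' (induct on the degree, homogeneous components).
   regular: theta_d,...,theta_1 is an R_m-regular sequence (unmixedness: (U) O Noetherian local, Ext^i(k,M)=0 for i<d, p in Ass M => dim O/p >= d;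
   if theta_j in p in Ass(M_j) then O/p has dimension <= j-1 < j).  Then it is R-regular: for a homogeneous ideal J of A and h not in m: hg in J => g in J.
   free: lift a k-basis of R/(theta)R to (homogeneous) elements e_i: generate by graded Nakayama, independent by regularity
   (induct on d: divide a relation by Y_d as long as possible, reduce mod Y_d).
(G4) [type] in the situation of G3, W an R-module with W = Hom_{B_d}(R,B_d): Ext^d_{R_m}(k,R_m) = k^t with t = dim_k W/mW.
   Proof: Ext^d(k,R_m) = Hom(k,R_m/(theta)) = Soc(R/thetaR) (R/thetaR is finite-dimensional local = R_m/thetaR_m);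
   W/thetaW = Hom_k(R/thetaR,k) (R free), so W/mW = dual of Soc.
(G5) hence for every v: dim O_v = l(v), Ext^{l(v)}(k,O_v) = k^{t}, t = dim_k I_bd(v)/m I_bd(v).

===================================================================================================
PART H.  THE FORMULA.  u, h, q, v=us, t, m=t-1 as in the GOAL.
===================================================================================================
Coordinates gamma (x=e, w=v): R := CR(Tbar_{e,v}), R_v = R[X], R_u = R[tau], tau = b/a != 0 (a != 0: S_{e,u} nonempty; b != 0: S_{s,u} nonempty, A9),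
R_{s,u} = R[tau^{-1}].  For v' covered by v, v' != u (descent at q): Pbar_{v'} = I(Tbar_{e,v'})/I(Tbar_{e,v}) in R, P_{v'} = Pbar_{v'}[X].
bb = cap_{v' != u} Pbar_{v'} radical ideal of R.
(H1) I_bd(v) = {g in R[X]: coefficients in bb, g(tau)=0} = (X-tau) cc[X], cc = {c in bb: c tau in bb}  (C2).  So
     dim I_bd(v)/m I_bd(v) = dim cc/mbar cc.
(H2) I_bd(u) subset R[tau];  cc = {c in R : c tau in R, c in I_bd(u)}.
   subset: u' covered by u: v'=u's (B8i), Pbar_{v'} maps to 0 in R_{u'} (A8).  superset: v' covered by v, v' != u: u'=v's (B8ii); c in R, c in I_{u'}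
   ==> c in Pbar_{v'} (A'3eq last statement, with S_{e,u'} nonempty); c tau in R and in I_{u'} (ideal of R[tau]), so in Pbar_{v'}.
(H3) e_k := lambda_{k-1} - lambda_k, lambda=-h, k=1..n-1 (positions k-1,k), Delta_{u,k}. E6 on R_u=R_{e,u}: f-_e I_bd(u) = f+_e R[tau], and on R_{s,u}:
   f-_s I_{s,bd}(u) = f+_s R[tau^{-1}].  For u' = u(a b) covered by u: sum_{a<k<=b} e_k = lambda_a - lambda_b = h(b)-h(a) = 1.
   In K = Frac R: Delta^{(s)}_{u,k} = +-Delta^{(e)}_{u,k} for k != q+1, Delta^{(s)}_{u,q+1} = tau^{-1} Delta^{(e)}_{u,q+1}; e_{q+1} = h(q+1)-h(q) = -t, so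
   f_s = +- tau^t f_e.  f := f_e: I_bd(u) = f R[tau], I_{s,bd}(u) = f tau^t R[tau^{-1}].
(H4) cc = f J, J = R[tau] cap tau^m R[tau^{-1}] = sum_{i<=m} R tau^i (C4).
   subset: x in cc: x in fR[tau]; tau x in bb subset I_{s,bd}(u) (Pbar_{v'} maps to 0 in R_{s,u'}) = f tau^t R[tau^{-1}]; so x/f in R[tau] cap tau^m R[tau^{-1}].
   superset: x = f y, y in J: x in I_bd(u) subset R[tau]; tau x in f tau^t R[tau^{-1}] subset R[tau^{-1}], so x in R[tau^{-1}] too: x in R (C1);
   tau x in R[tau] cap R[tau^{-1}] = R; so x in cc by H2.
(H5) dim J/mbar J = m+1: weights c_p = p - [p > q]: all variables of kappa have weight >= 1, a and b have the same weight delta: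
   a(lambda y) = lambda^delta a(y), b(lambda y) = lambda^delta b(y).  Suppose sum_i c_i tau^i = sum_j x_j tau^j, c_i in k, x_j in mbar. Multiply by a^m, evaluate at
   lambda y (y in Tbar), divide by lambda^{m delta}, lambda -> 0: sum c_i a^{m-i}b^i = 0 on Tbar, so sum c_i tau^i = 0. If some c_i != 0 then tau is
   algebraic over k, tau in k; but with the weights c_p=p: weight(b) = weight(a)+1, so b = c a forces b=0 (or a=0), contradiction.
   So the classes of 1,tau,..,tau^m are a basis.
So t(v) = m+1 = t.
-/
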