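import Mathlib

/-!
# MP_7fe4b4_ag : Cohen-Macaulay type of Schubert varieties at the identity -- definitions

All indices are 0-based: positions and values are in `Fin n`.

* `lowMat z` : the lower unitriangular matrix with entries `z`; the opposite big cell
  of `G/B` at the point `e_x` is `z ↦ x * lowMat z * B`.
* `Cell w = B w B`.
* `SS x v` : the points `z` with `x * lowMat z ∈ B v B`, i.e. the part of the `B`-orbit `B e_v` in the
  chart at `e_x`. Since charts are open, the closure of `B e_v` meets the chart in the closure of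
  `SS x v`, so `CR (SS x v)` is the coordinate ring of (the reduced variety) `X_v` in the chart at `e_x`.
-/

open MvPolynomial

noncomputable section

namespace CMT

/-- strictly lower triangular positions `(p, j)`, `j < p` -/
abbrev Low (n : ℕ) := {e : Fin n × Fin n // e.2 < e.1}

variable {n : ℕ} {R : Type*} [CommRing R]

/-- the lower unitriangular matrix with entries `z` -/
def lowMat (z : Low n → R) : Matrix (Fin n) (Fin n) R :=
  fun i j => if h : j < i then z ⟨(i, j), h⟩ else if i = j then 1 else 0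

/-- the permutation matrix of `w`: column `j` is the basis vector `e_{w j}` -/
def permMat (R : Type*) [CommRing R] (w : Equiv.Perm (Fin n)) : Matrix (Fin n) (Fin n) R :=
  fun i j => if i = w j then 1 else 0

/-- invertible upper triangular matrices -/
def IsUpper (b : Matrix (Fin n) (Fin n) ℂ) : Prop :=
  (∀ i j, j < i → b i j = 0) ∧ ∀ i, b i i ≠ 0

/-- the Bruhat cell `B w B` -/
def Cell (w : Equiv.Perm (Fin n)) : Set (Matrix (Fin n) (Fin n) ℂ) :=
  {M | ∃ b b' : Matrix (Fin n) (Fin n) ℂ, IsUpper b ∧ IsUpper b' ∧ M = b * permMat ℂ w * b'}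

/-- the part of the orbit `B e_v` in the chart at `e_x` -/
def SS (x v : Equiv.Perm (Fin n)) : Set (Low n → ℂ) :=
  {z | permMat ℂ x * lowMat z ∈ Cell v}

/-- the ideal of (the Zariski closure of) a set of points -/
abbrev VI {ι : Type} (S : Set (ι → ℂ)) : Ideal (MvPolynomial ι ℂ) := vanishingIdeal ℂ S

/-- the coordinate ring of the Zariski closure of a set of points -/
abbrev CR {ι : Type} (S : Set (ι → ℂ)) : Type := MvPolynomial ι ℂ ⧸ VI S

/-- the ideal of the origin -/
def orig {ι : Type} (S : Set (ι → ℂ)) : Ideal (CR S) :=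
  Ideal.span (Set.range fun e => Ideal.Quotient.mk (VI S) (X e))

/-- the number of inversions -/
def len (v : Equiv.Perm (Fin n)) : ℕ :=
  (Finset.univ.filter fun p : Fin n × Fin n => p.1 < p.2 ∧ v p.2 < v p.1).card

/-- the rank function: the number of `j < k` with `i ≤ w j` -/
def rk (w : Equiv.Perm (Fin n)) (i k : ℕ) : ℕ :=
  (Finset.univ.filter fun j : Fin n => j.val < k ∧ i ≤ (w j).val).card

/-- Bruhat order (rank/tableau criterion) -/
def ble (w v : Equiv.Perm (Fin n)) : Prop := ∀ i k, rk w i k ≤ rk v i k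

/-- `w` is covered by `v` in Bruhat order -/
def cov (w v : Equiv.Perm (Fin n)) : Prop := ble w v ∧ len v = len w + 1

/-- the minor with rows `w 0, ..., w (k-1)` and the first `k` columns -/
def mnr (w : Equiv.Perm (Fin n)) (k : ℕ) (hk : k ≤ n) (M : Matrix (Fin n) (Fin n) R) : R :=
  Matrix.det (Matrix.of fun i j : Fin k => M (w (Fin.castLE hk i)) (Fin.castLE hk j))

/-- the minor `mnr w k` as a polynomial function on the chart at `e_x` -/
def pmnr (x w : Equiv.Perm (Fin n)) (k : ℕ) (hk : k ≤ n) : MvPolynomial (Low n) ℂ :=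
  mnr w k hk (permMat _ x * lowMat (fun e : Low n => (X e : MvPolynomial (Low n) ℂ)))

/-- `q` and `q+1` as elements of `Fin n`, and the simple reflection -/
def q0 (q : ℕ) (hq : q + 1 < n) : Fin n := ⟨q, by omega⟩
def q1 (q : ℕ) (hq : q + 1 < n) : Fin n := ⟨q + 1, hq⟩
def sr (q : ℕ) (hq : q + 1 < n) : Equiv.Perm (Fin n) := Equiv.swap (q0 q hq) (q1 q hq)

/-- `v` has no descent at `q` -/
def asc (v : Equiv.Perm (Fin n)) (q : ℕ) (hq : q + 1 < n) : Prop := v (q0 q hq) < v (q1 q hq)
/-- `v` has a descent at `q` -/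
def dsc (v : Equiv.Perm (Fin n)) (q : ℕ) (hq : q + 1 < n) : Prop := v (q1 q hq) < v (q0 q hq)

/-! ### depth -/

/-- depth of `M` with respect to the ideal `I` is at least `d` (weakly regular sequence) -/
def Dep (R : Type*) [CommRing R] (I : Ideal R) (M : Type*) [AddCommGroup M] [Module R M]
    (d : ℕ) : Prop :=
  ∃ rs : List R, rs.length = d ∧ (∀ r ∈ rs, r ∈ I) ∧ RingTheory.Sequence.IsWeaklyRegular M rs

/-- `CR S` is a normal domain of depth at least `d` at the origin -/
def Good {ι : Type} (S : Set (ι → ℂ)) (d : ℕ) : Prop :=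
  IsDomain (CR S) ∧ IsIntegrallyClosed (CR S) ∧ Dep (CR S) (orig S) (CR S) d

/-! ### charts -/

/-- all strictly lower triangular positions except `(q+1, q)` -/
abbrev Kap (n q : ℕ) (hq : q + 1 < n) := {e : Low n // e.1 ≠ (q1 q hq, q0 q hq)}

/-- extension by zero at `(q+1, q)` -/
def ext0 {q : ℕ} {hq : q + 1 < n} (y : Kap n q hq → R) : Low n → R :=
  fun e => if h : e.1 = (q1 q hq, q0 q hq) then 0 else y ⟨e, h⟩

/-- `1 + t E_{q+1,q}` -/
def xq (q : ℕ) (hq : q + 1 < n) (t : R) : Matrix (Fin n) (Fin n) R :=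
  1 + Matrix.single (q1 q hq) (q0 q hq) t

/-- the coordinate change `gamma` of the blueprint -/
def gam {q : ℕ} {hq : q + 1 < n} (y : Option (Kap n q hq) → R) : Low n → R :=
  fun e => (lowMat (ext0 fun i => y (some i)) * xq q hq (y none)) e.1.1 e.1.2

/-- the coordinate change `gamma'` of the blueprint -/
def gam' {q : ℕ} {hq : q + 1 < n} (y : Option (Kap n q hq) → R) : Low n → R :=
  fun e => (permMat R (sr q hq) * lowMat (ext0 fun i => y (some i)) * permMat R (sr q hq) *
    xq q hq (y none)) e.1.1 e.1.2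

/-- `Tbar_{x,w}` -/
def Tb (x w : Equiv.Perm (Fin n)) (q : ℕ) (hq : q + 1 < n) : Set (Kap n q hq → ℂ) :=
  {y | permMat ℂ x * lowMat (ext0 y) ∈ Cell w ∪ Cell (w * sr q hq)}

/-- the function `a` -/
def aP (x w : Equiv.Perm (Fin n)) (q : ℕ) (hq : q + 1 < n) : MvPolynomial (Kap n q hq) ℂ :=
  mnr w (q + 1) (by omega)
    (permMat _ x * lowMat (ext0 fun i : Kap n q hq => (X i : MvPolynomial (Kap n q hq) ℂ)) *
      permMat _ (sr q hq))

/-- the function `b` -/
def bP (x w : Equiv.Perm (Fin n)) (q : ℕ) (hq : q + 1 < n) : MvPolynomial (Kap n q hq) ℂ :=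
  - mnr w (q + 1) (by omega)
    (permMat _ x * lowMat (ext0 fun i : Kap n q hq => (X i : MvPolynomial (Kap n q hq) ℂ)))

/-- the set `{(y,t) : y ∈ T, a(y) t ≠ b(y)}` -/
def Sne {κ : Type} (T : Set (κ → ℂ)) (a b : MvPolynomial κ ℂ) : Set (Option κ → ℂ) :=
  {y | (fun i => y (some i)) ∈ T ∧ aeval (fun i => y (some i)) a * y none ≠
    aeval (fun i => y (some i)) b}

/-- the set `{(y,t) : y ∈ T, a(y) t = b(y)}` -/
def Seq {κ : Type} (T : Set (κ → ℂ)) (a b : MvPolynomial κ ℂ) : Set (Option κ → ℂ) :=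
  {y | (fun i => y (some i)) ∈ T ∧ aeval (fun i => y (some i)) a * y none =
    aeval (fun i => y (some i)) b}

/-! ### boundary -/

/-- the ideal `P_{w} = I_{x,w} / I_{x,v}` of `R_{x,v}` -/
def Pid (x v w : Equiv.Perm (Fin n)) : Ideal (CR (SS x v)) :=
  (VI (SS x w)).map (Ideal.Quotient.mk (VI (SS x v)))

/-- the ideal of the boundary `∂X_v` in the chart at `e_x` (intersection over the covers) -/
def bd (x v : Equiv.Perm (Fin n)) : Ideal (CR (SS x v)) :=
  ⨅ w : {w : Equiv.Perm (Fin n) // cov w v}, Pid x v w.1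

end CMT
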