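import Pool.Agent.H43.CM.H.Iface
import Pool.Agent.H43.CM.F.CV
import Pool.Agent.H43.CM.G.Iface
import Pool.Agent.H43.CM.M.Orig
import Pool.Agent.H43.CM.M.Inv3

/-!
# MP_7fe4b4_ag : the final theorem from the interfaces
-/

open MvPolynomial

noncomputable section

namespace CMT

variable {n : ℕ}

instance (v : Equiv.Perm (Fin n)) : (orig (SS 1 v)).IsPrime := orig_isPrime v

/-- the local ring of the Schubert variety `X_v` at the point `e_id` -/
abbrev SchubertLocalRing (v : Equiv.Perm (Fin n)) : Type :=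
  Localization.AtPrime (orig (SS 1 v))

/-- (G5) the type is the number of generators of the ideal of the boundary -/
theorem hasType_bd (v : Equiv.Perm (Fin n)) :
    HasType (SchubertLocalRing v) (len v)
      (Module.finrank ℂ (bd 1 v ⧸ (orig (SS 1 v) • (⊤ : Submodule (CR (SS 1 v)) (bd 1 v))))) := by
  have : (Ideal.span (Set.range fun e => Ideal.Quotient.mk (VI (SS 1 v)) (X e) :
      Set (MvPolynomial (Low n) ℂ ⧸ VI (SS 1 v)))).IsPrime := orig_isPrime v
  exact gradedCM_type wt (VI (SS 1 v)) (len v) (fun i => theta n (i.val + 1)) (gradedCM_SS v)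
    (bd 1 v) (CV v)

theorem hasType_right (u : Equiv.Perm (Fin n)) (h : Fin n → ℤ) (hu : RankFun u h) (q : ℕ)
    (hq : q + 1 < n) (ha : asc u q hq) (hs : ∃ j : Fin n, j.val ≤ q ∧ q < (u j).val) (t : ℕ)
    (ht : 1 ≤ t) (hh : h (q0 q hq) - h (q1 q hq) = t) :
    HasType (SchubertLocalRing (u * sr q hq)) (len (u * sr q hq)) t := by
  have := hasType_bd (u * sr q hq)
  rwa [finrank_bd u h hu q hq ha (sr_ble q hq hs) t ht hh] at this

theorem hasType_left (u : Equiv.Perm (Fin n)) (h : Fin n → ℤ) (hu : RankFun u h) (q : ℕ)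
    (hq : q + 1 < n) (ha : asc u q hq) (hs : ∃ j : Fin n, j.val ≤ q ∧ q < (u j).val) (t : ℕ)
    (ht : 1 ≤ t) (hh : h (q0 q hq) - h (q1 q hq) = t) :
    HasType (SchubertLocalRing (u * sr q hq)⁻¹) (len (u * sr q hq)⁻¹) t := by
  have := hasType_bd (u * sr q hq)⁻¹
  rwa [finrank_bd_inv, finrank_bd u h hu q hq ha (sr_ble q hq hs) t ht hh] at this

end CMT
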